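import Pool.Agent.Q170.DDC.Words

/-!
Counting reduced words.
-/

namespace Q170.DDC

open FreeGroup

/-- letters of the free group of rank `n` -/
abbrev Le (n : ℕ) := Fin n × Bool

/-- the letters that may precede the word `w` -/
def okL (n : ℕ) (w : List (Le n)) : Finset (Le n) :=
  Finset.univ.filter (fun x => ∀ y ∈ w.head?, x.1 = y.1 → x.2 = y.2)

/-- reduced words of length `k` -/
def RW (n : ℕ) : ℕ → Finset (List (Le n))
  | 0 => {[]}
  | k + 1 => (RW n k).biUnion (fun w => (okL n w).image (fun x => x :: w))

lemma mem_RW {n k : ℕ} {w : List (Le n)} :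
    w ∈ RW n k ↔ w.length = k ∧ FreeGroup.IsReduced w := by
  induction k generalizing w with
  | zero =>
    simp only [RW, Finset.mem_singleton, List.length_eq_zero_iff]
    constructor
    · rintro rfl; exact ⟨rfl, FreeGroup.IsReduced.nil⟩
    · exact fun h => h.1
  | succ k ih =>
    simp only [RW, Finset.mem_biUnion, Finset.mem_image, okL, Finset.mem_filter,
      Finset.mem_univ, true_and]
    constructor
    · rintro ⟨v, hv, x, hx, rfl⟩
      rw [ih] at hv
      refine ⟨by simp [hv.1], ?_⟩
      cases v with
      | nil => exact FreeGroup.IsReduced.singleton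
      | cons y v =>
        rw [FreeGroup.isReduced_cons_cons]
        exact ⟨hx y (by simp), hv.2⟩
    · rintro ⟨h1, h2⟩
      cases w with
      | nil => simp at h1
      | cons x v =>
        refine ⟨v, ih.mpr ⟨by simpa using h1, red_right (a := [x]) h2⟩, x, ?_, rfl⟩
        intro y hy
        cases v with
        | nil => simp at hy
        | cons z v =>
          simp at hy
          subst hy
          rw [FreeGroup.isReduced_cons_cons] at h2
          exact h2.1

lemma card_okL_nil (n : ℕ) : (okL n []).card = 2 * n := by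
  simp [okL, mul_comm]

lemma card_okL_cons (n : ℕ) (y : Le n) (w : List (Le n)) :
    (okL n (y :: w)).card = 2 * n - 1 := by
  have h : okL n (y :: w) = Finset.univ.erase (y.1, !y.2) := by
    ext x
    have e : x ∈ okL n (y :: w) ↔ (x.1 = y.1 → x.2 = y.2) := by
      simp only [okL, List.head?_cons, Option.mem_def, Finset.mem_filter,
        Finset.mem_univ, true_and]
      constructor
      · intro h
        exact h y rfl
      · intro h z hz
        simp only [Option.some.injEq] at hz
        subst hz
        exact h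
    rw [e]
    simp only [Finset.mem_univ, Finset.mem_erase, and_true, ne_eq, Prod.ext_iff, not_and]
    constructor
    · intro h h1 h2
      rw [h h1] at h2
      simp at h2
    · intro h h1
      have := h h1
      revert this
      cases x.2 <;> cases y.2 <;> simp
  rw [h, Finset.card_erase_of_mem (Finset.mem_univ _)]
  simp [mul_comm]

lemma card_RW_succ (n k : ℕ) :
    (RW n (k + 1)).card = ∑ w ∈ RW n k, (okL n w).card := by
  rw [RW, Finset.card_biUnion]
  · apply Finset.sum_congr rfl
    intro w _
    apply Finset.card_image_of_injective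
    intro x y h
    simpa using h
  · intro u _ v _ huv
    rw [Function.onFun, Finset.disjoint_left]
    intro z hz hz'
    simp only [Finset.mem_image] at hz hz'
    obtain ⟨x, _, rfl⟩ := hz
    obtain ⟨y, _, h⟩ := hz'
    simp at h
    exact huv h.2.symm

lemma card_RW (n k : ℕ) : (RW n (k + 1)).card = 2 * n * (2 * n - 1) ^ k := by
  induction k with
  | zero =>
    rw [card_RW_succ]
    simp [RW, card_okL_nil]
  | succ k ih =>
    rw [card_RW_succ, Finset.sum_congr rfl (g := fun _ => 2 * n - 1), Finset.sum_const, ih,
      smul_eq_mul, pow_succ]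
    · ring
    · intro w hw
      rw [mem_RW] at hw
      cases w with
      | nil => simp at hw
      | cons y w => exact card_okL_cons n y w

lemma le_card_RW {n : ℕ} (k : ℕ) : (2 * n - 1) ^ k ≤ (RW n k).card := by
  cases k with
  | zero => simp [RW]
  | succ k =>
    rw [card_RW, pow_succ, mul_comm]
    exact Nat.mul_le_mul_right _ (by omega)

lemma card_RW_le {n : ℕ} (hn : 2 ≤ n) (k : ℕ) : (RW n k).card ≤ 2 * (2 * n - 1) ^ k := by
  cases k with
  | zero => simp [RW]
  | succ k =>
    rw [card_RW, pow_succ]
    have : 2 * n ≤ 2 * (2 * n - 1) := by omega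
    calc 2 * n * (2 * n - 1) ^ k ≤ 2 * (2 * n - 1) * (2 * n - 1) ^ k :=
          Nat.mul_le_mul_right _ this
      _ = _ := by ring

/-- the number of reduced words of length at most `k` -/
lemma sum_card_RW_le {n : ℕ} (hn : 2 ≤ n) (k : ℕ) :
    ∑ i ∈ Finset.range (k + 1), (RW n i).card ≤ (2 * n - 1) ^ (k + 1) := by
  induction k with
  | zero => simp [RW]; omega
  | succ k ih =>
    rw [Finset.sum_range_succ]
    have h := card_RW_le hn (k + 1)
    have h3 : 3 ≤ 2 * n - 1 := by omega
    calc _ ≤ (2 * n - 1) ^ (k + 1) + 2 * (2 * n - 1) ^ (k + 1) := Nat.add_le_add ih h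
      _ = 3 * (2 * n - 1) ^ (k + 1) := by ring
      _ ≤ (2 * n - 1) * (2 * n - 1) ^ (k + 1) := Nat.mul_le_mul_right _ h3
      _ = _ := by ring

lemma take_mem_RW {n k : ℕ} {w : List (Le n)} (hw : w ∈ RW n k) {j : ℕ} (hj : j ≤ k) :
    w.take j ∈ RW n j := by
  rw [mem_RW] at *
  exact ⟨by simp; omega, red_take hw.2 j⟩

lemma drop_mem_RW {n k : ℕ} {w : List (Le n)} (hw : w ∈ RW n k) {j : ℕ} :
    w.drop j ∈ RW n (k - j) := by
  rw [mem_RW] at *
  exact ⟨by simp; omega, red_drop hw.2 j⟩

end Q170.DDC
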