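import Pool.Agent.Q170.DDC.Ext

/-!
Random digits: for most words all prefix sums and suffix sums are different from those of the
other words.
-/

namespace Q170.DDC

section functional

variable {β : Type*} {P : ℕ}

/-- the sum of the digits of a word which starts at the position `s` -/
def S (d : ℕ → β → ZMod P) : ℕ → List β → ZMod P
  | _, [] => 0
  | s, x :: u => d s x + S d (s + 1) u

lemma S_append (d : ℕ → β → ZMod P) (s : ℕ) (u v : List β) :
    S d s (u ++ v) = S d s u + S d (s + u.length) v := by
  induction u generalizing s with
  | nil => simp [S]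
  | cons x u ih =>
    simp only [List.cons_append, S, ih, List.length_cons]
    rw [show s + 1 + u.length = s + (u.length + 1) by ring]
    ring

lemma S_add (d d' : ℕ → β → ZMod P) (s : ℕ) (u : List β) :
    S (d + d') s u = S d s u + S d' s u := by
  induction u generalizing s with
  | nil => simp [S]
  | cons x u ih =>
    simp only [S, ih, Pi.add_apply]
    ring

lemma S_zero {t : ℕ → β → ZMod P} {s : ℕ} (h : ∀ i, s ≤ i → t i = 0) (u : List β) :
    S t s u = 0 := by
  induction u generalizing s with
  | nil => simp [S]
  | cons x u ih =>
    simp only [S]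
    rw [ih (fun i hi => h i (by omega)), h s le_rfl]
    simp

lemma exists_shift_aux [DecidableEq β] (u u' : List β) (hl : u.length = u'.length)
    (hne : u ≠ u') (s : ℕ) :
    ∃ t : ℕ → β → ZMod P, (∀ i, i < s → t i = 0) ∧ (∀ i, s + u.length ≤ i → t i = 0) ∧
      S t s u - S t s u' = 1 := by
  induction u generalizing s u' with
  | nil =>
    exfalso
    apply hne
    simp at hl
    rw [List.length_eq_zero_iff.mp hl.symm]
  | cons x v ih =>
    cases u' with
    | nil => simp at hl
    | cons x' v' =>
      by_cases hx : x = x'
      · subst hx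
        have hv : v ≠ v' := fun h => hne (by rw [h])
        obtain ⟨t, h1, h2, h3⟩ := ih v' (by simpa using hl) hv (s + 1)
        refine ⟨t, fun i hi => h1 i (by omega), fun i hi => h2 i (by simp at hi; omega), ?_⟩
        simp only [S]
        rw [h1 s (by omega)]
        simpa using h3
      · refine ⟨fun i y => if i = s ∧ y = x then 1 else 0, ?_, ?_, ?_⟩
        · intro i hi
          ext y
          simp [hi.ne]
        · intro i hi
          ext y
          simp only [List.length_cons] at hi
          have : i ≠ s := by omega
          simp [this]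
        · simp only [S]
          rw [S_zero, S_zero]
          · simp [Ne.symm hx]
          · intro i hi
            ext y
            have : i ≠ s := by omega
            simp [this]
          · intro i hi
            ext y
            have : i ≠ s := by omega
            simp [this]

/-- the space of digits -/
abbrev Om (P l : ℕ) (β : Type*) := Fin l → β → ZMod P

/-- extension by zero -/
def ext0 {l : ℕ} (d : Om P l β) : ℕ → β → ZMod P :=
  fun i x => if h : i < l then d ⟨i, h⟩ x else 0

lemma ext0_add {l : ℕ} (d d' : Om P l β) : ext0 (d + d') = ext0 d + ext0 d' := by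
  ext i x
  simp only [ext0, Pi.add_apply]
  split_ifs <;> simp

lemma exists_shift [DecidableEq β] {l : ℕ} (u u' : List β) (hl : u.length = u'.length)
    (hne : u ≠ u') (s : ℕ) (hs : s + u.length ≤ l) :
    ∃ t : Om P l β, S (ext0 t) s u - S (ext0 t) s u' = 1 := by
  obtain ⟨t, _, h2, h3⟩ := exists_shift_aux (P := P) u u' hl hne s
  refine ⟨fun i x => t i x, ?_⟩
  have : ext0 (fun (i : Fin l) x => t i x) = t := by
    ext i x
    simp only [ext0]
    split_ifs with h
    · rfl
    · rw [h2 i (by omega)]; rfl
  rw [this]
  exact h3

end functional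

section count

variable {β : Type*} [Fintype β] [DecidableEq β] {P : ℕ} [Fact P.Prime]

instance : NeZero P := ⟨(Fact.out : P.Prime).ne_zero⟩

lemma card_fiber {G : Type*} [AddCommGroup G] [Fintype G] [DecidableEq G] (f : G → ZMod P)
    (hf : ∀ x y, f (x + y) = f x + f y) (t : G) (ht : f t = 1) :
    P * (Finset.univ.filter (fun d => f d = 0)).card = Fintype.card G := by
  have h0 : f 0 = 0 := by
    have := hf 0 0
    rw [add_zero] at this
    simpa using this
  have hn : ∀ k : ℕ, f (k • t) = k := by
    intro k
    induction k with
    | zero => simp [h0]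
    | succ k ih => rw [succ_nsmul, hf, ih, ht]; push_cast; ring
  have hneg : ∀ x, f (-x) = - f x := by
    intro x
    have := hf x (-x)
    rw [add_neg_cancel, h0] at this
    exact (neg_eq_of_add_eq_zero_right this.symm).symm
  have hc : ∀ c : ZMod P, (Finset.univ.filter (fun d => f d = c)).card =
      (Finset.univ.filter (fun d => f d = 0)).card := by
    intro c
    apply Finset.card_nbij' (fun d => d - c.val • t) (fun d => d + c.val • t)
    · intro d hd
      simp only [Finset.coe_filter, Finset.mem_univ, true_and, Set.mem_ofPred_eq] at hd ⊢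
      rw [sub_eq_add_neg, hf, hneg, hn, hd, ZMod.natCast_zmod_val]
      ring
    · intro d hd
      simp only [Finset.coe_filter, Finset.mem_univ, true_and, Set.mem_ofPred_eq] at hd ⊢
      rw [hf, hn, hd, ZMod.natCast_zmod_val]
      ring
    · intro d _
      simp
    · intro d _
      simp
  have h1 : Fintype.card G = ∑ c : ZMod P, (Finset.univ.filter (fun d => f d = c)).card := by
    rw [← Finset.card_univ]
    exact Finset.card_eq_sum_card_fiberwise (fun x _ => Finset.mem_coe.mpr (Finset.mem_univ _))
  rw [h1, Finset.sum_congr rfl (fun c _ => hc c), Finset.sum_const, Finset.card_univ,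
    ZMod.card, smul_eq_mul]

lemma card_event {l : ℕ} (u u' : List β) (hl : u.length = u'.length)
    (hne : u ≠ u') (s : ℕ) (hs : s + u.length ≤ l) :
    P * (Finset.univ.filter (fun d : Om P l β => S (ext0 d) s u = S (ext0 d) s u')).card =
      Fintype.card (Om P l β) := by
  obtain ⟨t, ht⟩ := exists_shift (P := P) u u' hl hne s hs
  have := card_fiber (P := P) (fun d : Om P l β => S (ext0 d) s u - S (ext0 d) s u') (by
    intro x y
    simp only [ext0_add, S_add]
    ring) t ht
  rw [← this]
  congr 2
  ext d
  simp [sub_eq_zero]

/-- the number of coincidences -/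
lemma sum_coinc {l : ℕ} (R : Finset (List β)) (v : List β) (s : ℕ)
    (hR : ∀ u ∈ R, u.length = v.length) (hs : s + v.length ≤ l) :
    P * ∑ d : Om P l β, (R.filter (fun u => u ≠ v ∧ S (ext0 d) s u = S (ext0 d) s v)).card ≤
      R.card * Fintype.card (Om P l β) := by
  classical
  have h1 : ∑ d : Om P l β, (R.filter (fun u => u ≠ v ∧
      S (ext0 d) s u = S (ext0 d) s v)).card =
      ∑ u ∈ R, (Finset.univ.filter (fun d : Om P l β => u ≠ v ∧
        S (ext0 d) s u = S (ext0 d) s v)).card := by
    simp only [Finset.card_filter]
    rw [Finset.sum_comm]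
  rw [h1, Finset.mul_sum]
  calc ∑ u ∈ R, P * (Finset.univ.filter (fun d : Om P l β => u ≠ v ∧
        S (ext0 d) s u = S (ext0 d) s v)).card ≤ ∑ _u ∈ R, Fintype.card (Om P l β) := by
        apply Finset.sum_le_sum
        intro u hu
        by_cases hne : u = v
        · simp [hne]
        · have := card_event (P := P) u v (hR u hu) hne s (l := l) (by rw [hR u hu]; exact hs)
          rw [← this]
          apply Nat.mul_le_mul_left
          apply Finset.card_le_card
          intro d
          simp only [Finset.mem_filter, Finset.mem_univ, true_and]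
          exact fun h => h.2
    _ = _ := by rw [Finset.sum_const, smul_eq_mul]

end count

section exist

variable {n : ℕ} {P : ℕ} [Fact P.Prime]

/-- the word `y` is bad for the digits `d` -/
def Bad (n l : ℕ) (d : ℕ → Le n → ZMod P) (y : List (Le n)) : Prop :=
  ∃ k ∈ Finset.range (l + 1),
    (∃ u ∈ RW n k, u ≠ y.take k ∧ S d 0 u = S d 0 (y.take k)) ∨
    (∃ u ∈ RW n (l - k), u ≠ y.drop k ∧ S d k u = S d k (y.drop k))

open Classical in
lemma exists_digits (hn : 2 ≤ n) {l : ℕ} (W : Finset (List (Le n))) (hW : W ⊆ RW n l) :
    ∃ d : ℕ → Le n → ZMod P,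
      P * (W.filter (Bad n l d)).card ≤ 2 * (2 * n - 1) ^ (l + 1) * W.card := by
  set N : Om P l (Le n) → ℕ := fun d => ∑ y ∈ W, ∑ k ∈ Finset.range (l + 1),
    (((RW n k).filter (fun u => u ≠ y.take k ∧
        S (ext0 d) 0 u = S (ext0 d) 0 (y.take k))).card +
      ((RW n (l - k)).filter (fun u => u ≠ y.drop k ∧
        S (ext0 d) k u = S (ext0 d) k (y.drop k))).card) with hN
  have h1 : ∀ d, (W.filter (Bad n l (ext0 d))).card ≤ N d := by
    intro d
    rw [Finset.card_filter, hN]
    apply Finset.sum_le_sum
    intro y _
    split_ifs with hb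
    · obtain ⟨k, hk, h⟩ := hb
      refine le_trans ?_ (Finset.single_le_sum (f := fun k =>
        (((RW n k).filter (fun u => u ≠ y.take k ∧
            S (ext0 d) 0 u = S (ext0 d) 0 (y.take k))).card +
          ((RW n (l - k)).filter (fun u => u ≠ y.drop k ∧
            S (ext0 d) k u = S (ext0 d) k (y.drop k))).card)) (fun _ _ => Nat.zero_le _) hk)
      rcases h with ⟨u, hu, h⟩ | ⟨u, hu, h⟩
      · refine le_trans ?_ (Nat.le_add_right _ _)
        exact Finset.card_pos.mpr ⟨u, Finset.mem_filter.mpr ⟨hu, h⟩⟩
      · refine le_trans ?_ (Nat.le_add_left _ _)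
        exact Finset.card_pos.mpr ⟨u, Finset.mem_filter.mpr ⟨hu, h⟩⟩
    · exact Nat.zero_le _
  have h2 : P * ∑ d, N d ≤ 2 * (2 * n - 1) ^ (l + 1) * W.card *
      Fintype.card (Om P l (Le n)) := by
    have e : ∑ d, N d = ∑ y ∈ W, ∑ k ∈ Finset.range (l + 1),
      (∑ d : Om P l (Le n), ((RW n k).filter (fun u => u ≠ y.take k ∧
          S (ext0 d) 0 u = S (ext0 d) 0 (y.take k))).card +
        ∑ d : Om P l (Le n), ((RW n (l - k)).filter (fun u => u ≠ y.drop k ∧
          S (ext0 d) k u = S (ext0 d) k (y.drop k))).card) := by
      rw [hN, Finset.sum_comm]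
      apply Finset.sum_congr rfl
      intro y _
      rw [Finset.sum_comm]
      apply Finset.sum_congr rfl
      intro k _
      rw [Finset.sum_add_distrib]
    rw [e, Finset.mul_sum]
    calc _ ≤ ∑ _y ∈ W, 2 * (2 * n - 1) ^ (l + 1) * Fintype.card (Om P l (Le n)) := by
          apply Finset.sum_le_sum
          intro y hy
          have hy' := hW hy
          have hyl := (mem_RW.mp hy').1
          rw [Finset.mul_sum]
          calc _ ≤ ∑ k ∈ Finset.range (l + 1), ((RW n k).card + (RW n (l - k)).card) *
                Fintype.card (Om P l (Le n)) := by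
                apply Finset.sum_le_sum
                intro k hk
                rw [Finset.mem_range] at hk
                rw [mul_add, add_mul]
                apply Nat.add_le_add
                · apply sum_coinc
                  · intro u hu
                    rw [(mem_RW.mp hu).1, (mem_RW.mp (take_mem_RW hy' (by omega))).1]
                  · rw [List.length_take]; omega
                · apply sum_coinc
                  · intro u hu
                    rw [(mem_RW.mp hu).1, (mem_RW.mp (drop_mem_RW hy')).1]
                  · rw [List.length_drop]; omega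
            _ = (∑ k ∈ Finset.range (l + 1), (RW n k).card +
                  ∑ k ∈ Finset.range (l + 1), (RW n (l - k)).card) *
                Fintype.card (Om P l (Le n)) := by
                rw [← Finset.sum_mul, Finset.sum_add_distrib]
            _ ≤ _ := by
                apply Nat.mul_le_mul_right
                have h3 := Finset.sum_range_reflect (fun k => (RW n k).card) (l + 1)
                have h4 : ∑ k ∈ Finset.range (l + 1), (RW n (l - k)).card =
                    ∑ k ∈ Finset.range (l + 1), (RW n k).card := by
                  rw [← h3]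
                  apply Finset.sum_congr rfl
                  intro k _
                  congr 2
                have h5 := sum_card_RW_le hn l
                rw [h4]
                omega
      _ = _ := by
          rw [Finset.sum_const, smul_eq_mul]
          ring
  by_contra hcon
  push Not at hcon
  have hlt : ∀ d : Om P l (Le n), 2 * (2 * n - 1) ^ (l + 1) * W.card < P * N d :=
    fun d => lt_of_lt_of_le (hcon (ext0 d)) (Nat.mul_le_mul_left _ (h1 d))
  have h3 : ∑ _d : Om P l (Le n), 2 * (2 * n - 1) ^ (l + 1) * W.card <
      ∑ d : Om P l (Le n), P * N d :=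
    Finset.sum_lt_sum_of_nonempty ⟨0, Finset.mem_univ _⟩ (fun d _ => hlt d)
  rw [Finset.sum_const, smul_eq_mul, Finset.card_univ, ← Finset.mul_sum] at h3
  rw [mul_comm (2 * (2 * n - 1) ^ (l + 1) * W.card)] at h2
  exact absurd h2 (not_le.mpr h3)

end exist

end Q170.DDC
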