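import Pool.Agent.Q170.DDC.Count

/-!
Many reduced words which begin and end with the same letter.
-/

namespace Q170.DDC

open FreeGroup

/-- a fixed letter -/
def la {n : ℕ} (hn : 2 ≤ n) : Le n := (⟨0, by omega⟩, true)

/-- two further letters -/
def lb {n : ℕ} (hn : 2 ≤ n) (s : Bool) : Le n := (⟨1, by omega⟩, s)

/-- the sign that fits -/
def sgn {n : ℕ} (hn : 2 ≤ n) (o : Option (Le n)) : Bool :=
  if o = some (lb hn false) then false else true

/-- extension of a word -/
def extw {n : ℕ} (hn : 2 ≤ n) (w : List (Le n)) : List (Le n) :=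
  [la hn, lb hn (sgn hn w.head?)] ++ w ++ [lb hn (sgn hn w.getLast?), la hn]

lemma sgn_ok {n : ℕ} (hn : 2 ≤ n) (x : Le n) (h : x.1 = (lb hn true).1) :
    x.2 = sgn hn (some x) := by
  unfold sgn
  obtain ⟨i, s⟩ := x
  simp only [lb] at h
  subst h
  cases s <;> simp [lb]

lemma extw_length {n : ℕ} (hn : 2 ≤ n) (w : List (Le n)) :
    (extw hn w).length = w.length + 4 := by
  simp [extw]

lemma extw_head {n : ℕ} (hn : 2 ≤ n) (w : List (Le n)) :
    (extw hn w).head? = some (la hn) := by
  simp [extw]

lemma extw_last {n : ℕ} (hn : 2 ≤ n) (w : List (Le n)) :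
    (extw hn w).getLast? = some (la hn) := by
  have : extw hn w = ([la hn, lb hn (sgn hn w.head?)] ++ w ++ [lb hn (sgn hn w.getLast?)]) ++
      [la hn] := by simp [extw]
  rw [this, List.getLast?_concat]

lemma extw_reduced {n : ℕ} (hn : 2 ≤ n) {w : List (Le n)} (hw : FreeGroup.IsReduced w) :
    FreeGroup.IsReduced (extw hn w) := by
  have hab : ∀ s, (la hn).1 ≠ (lb hn s).1 := by
    intro s
    simp [la, lb]
  unfold extw FreeGroup.IsReduced at *
  rw [List.isChain_append, List.isChain_append]
  refine ⟨⟨?_, hw, ?_⟩, ?_, ?_⟩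
  · rw [List.isChain_cons_cons]
    refine ⟨fun h => absurd h (hab _), List.isChain_singleton _⟩
  · intro x hx y hy hxy
    simp only [List.getLast?_cons_cons, List.getLast?_singleton, Option.mem_def,
      Option.some.injEq] at hx
    subst hx
    have hy' : w.head? = some y := hy
    rw [hy']
    rw [sgn_ok hn y hxy.symm]
    rfl
  · rw [List.isChain_cons_cons]
    refine ⟨fun h => absurd h.symm (hab _), List.isChain_singleton _⟩
  · intro x hx y hy hxy
    simp only [List.head?_cons, Option.mem_def, Option.some.injEq] at hy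
    subst hy
    rcases List.eq_nil_or_concat w with h | ⟨v, z, h⟩
    · subst h
      simp only [List.head?_nil, List.append_nil, List.getLast?_cons_cons,
        List.getLast?_singleton, Option.mem_def, Option.some.injEq] at hx
      subst hx
      simp [lb]
    · rw [List.concat_eq_append] at h
      subst h
      rw [← List.append_assoc, List.getLast?_concat, Option.mem_def, Option.some.injEq] at hx
      subst hx
      rw [List.getLast?_concat]
      exact sgn_ok hn z hxy

lemma extw_inj {n : ℕ} (hn : 2 ≤ n) {u v : List (Le n)} (huv : u.length = v.length)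
    (h : extw hn u = extw hn v) : u = v := by
  unfold extw at h
  rw [List.append_assoc, List.append_assoc] at h
  have h1 := List.append_inj h (by simp)
  exact (List.append_inj h1.2 huv).1

/-- the words used -/
def WW {n : ℕ} (hn : 2 ≤ n) (m : ℕ) : Finset (List (Le n)) := (RW n m).image (extw hn)

lemma card_WW {n : ℕ} (hn : 2 ≤ n) (m : ℕ) : (WW hn m).card = (RW n m).card := by
  unfold WW
  apply Finset.card_image_of_injOn
  intro u hu v hv h
  have h1 := (mem_RW.mp (Finset.mem_coe.mp hu)).1
  have h2 := (mem_RW.mp (Finset.mem_coe.mp hv)).1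
  exact extw_inj hn (by rw [h1, h2]) h

lemma mem_WW {n : ℕ} {hn : 2 ≤ n} {m : ℕ} {w : List (Le n)} (h : w ∈ WW hn m) :
    w.length = m + 4 ∧ FreeGroup.IsReduced w ∧ w.head? = some (la hn) ∧
      w.getLast? = some (la hn) := by
  unfold WW at h
  rw [Finset.mem_image] at h
  obtain ⟨v, hv, rfl⟩ := h
  rw [mem_RW] at hv
  exact ⟨by rw [extw_length, hv.1], extw_reduced hn hv.2, extw_head hn v, extw_last hn v⟩

lemma WW_subset {n : ℕ} {hn : 2 ≤ n} {m : ℕ} {w : List (Le n)} (h : w ∈ WW hn m) :
    w ∈ RW n (m + 4) := by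
  have := mem_WW h
  rw [mem_RW]
  exact ⟨this.1, this.2.1⟩

lemma reduced_append {n : ℕ} {hn : 2 ≤ n} {u v : List (Le n)} (hu : FreeGroup.IsReduced u)
    (hv : FreeGroup.IsReduced v) (h1 : u.getLast? = some (la hn))
    (h2 : v.head? = some (la hn)) : FreeGroup.IsReduced (u ++ v) := by
  unfold FreeGroup.IsReduced at *
  rw [List.isChain_append]
  refine ⟨hu, hv, ?_⟩
  intro x hx y hy _
  rw [h1] at hx
  rw [h2] at hy
  simp at hx hy
  rw [← hx, ← hy]

end Q170.DDC
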