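import Pool.Agent.Q170.DDC.Digits

/-!
The construction of a large distinct difference configuration.
-/

namespace Q170.DDC

section rect

variable {n : ℕ} {P : ℕ} [Fact P.Prime]

/-- the three pieces of a word -/
lemma pieces {β : Type*} {l : ℕ} {w : List β} :
    w = w.take l ++ (w.drop l).take l ++ w.drop (2 * l) := by
  conv_lhs => rw [← List.take_append_drop l w, ← List.take_append_drop l (w.drop l)]
  rw [List.drop_drop, List.append_assoc]
  congr 3
  ring

lemma take_eq_of {β : Type*} {p a b : List β} {i : ℕ} (hi : i ≤ p.length) :
    (p ++ a).take i = (p ++ b).take i := by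
  rw [List.take_append_of_le_length hi, List.take_append_of_le_length hi]

lemma drop_eq_of {β : Type*} {p p' a : List β} {i : ℕ} (h : p.length = p'.length)
    (hi : p.length ≤ i) :
    (p ++ a).drop i = (p' ++ a).drop i := by
  have h2 : p'.length ≤ i := by omega
  rw [List.drop_append, List.drop_append, List.drop_of_length_le hi,
    List.drop_of_length_le h2, h]

/-- the structure of the words of the configuration -/
structure Good3 (l : ℕ) (W : Finset (List (Le n))) (d : ℕ → Le n → ZMod P)
    (e : List (Le n) → ZMod P) (c : ZMod P) (w : List (Le n)) : Prop where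
  hX : w.take l ∈ W
  hY : (w.drop l).take l ∈ W
  hZ : w.drop (2 * l) ∈ W
  good : ¬ Bad n l d ((w.drop l).take l)
  ne0 : S d 0 ((w.drop l).take l) ≠ 0
  rel : e (w.drop (2 * l)) = c + e (w.take l) * S d 0 ((w.drop l).take l)

lemma rf_of_good {l : ℕ} {W : Finset (List (Le n))} (hW : W ⊆ RW n l)
    {d : ℕ → Le n → ZMod P} {e : List (Le n) → ZMod P} (he : Set.InjOn e W)
    (he0 : ∀ w ∈ W, e w ≠ 0) {c : ZMod P} {L : Set (List (Le n))}
    (hL : ∀ w ∈ L, Good3 l W d e c w) : RF L := by
  intro p p' a b hpp h1 h2 h3 h4
  have g1 := hL _ h1
  have g2 := hL _ h2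
  have g3 := hL _ h3
  have g4 := hL _ h4
  rcases le_or_gt p.length l with hj | hj
  · -- cut inside the first piece
    right
    have hd : (p ++ a).drop l = (p' ++ a).drop l := drop_eq_of hpp hj
    have hz : (p ++ a).drop (2 * l) = (p' ++ a).drop (2 * l) := drop_eq_of hpp (by omega)
    have r1 := g1.rel
    have r3 := g3.rel
    have hne := g1.ne0
    rw [hd, hz] at r1
    rw [hd] at hne
    rw [r3] at r1
    have hx : e ((p' ++ a).take l) = e ((p ++ a).take l) :=
      mul_right_cancel₀ hne (add_left_cancel r1)
    have hx' := he g3.hX g1.hX hx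
    have : p ++ a = p' ++ a := by
      rw [← List.take_append_drop l (p ++ a), ← List.take_append_drop l (p' ++ a), hd, hx']
    exact List.append_cancel_right this
  rcases le_or_gt (2 * l) p.length with hj2 | hj2
  · -- cut inside the third piece
    left
    have ht : (p ++ a).take (2 * l) = (p ++ b).take (2 * l) := take_eq_of hj2
    have hx : (p ++ a).take l = (p ++ b).take l := take_eq_of (by omega)
    have hy : ((p ++ a).drop l).take l = ((p ++ b).drop l).take l := by
      rw [List.take_drop, List.take_drop, ← two_mul, ht]
    have r1 := g1.rel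
    have r2 := g2.rel
    rw [hx, hy, ← r2] at r1
    have hz := he g1.hZ g2.hZ r1
    have : p ++ a = p ++ b := by
      rw [← List.take_append_drop (2 * l) (p ++ a), ← List.take_append_drop (2 * l) (p ++ b),
        ht, hz]
    exact List.append_cancel_left this
  · -- cut inside the second piece
    obtain ⟨k, hk⟩ : ∃ k, p.length = l + k := ⟨p.length - l, by omega⟩
    have hkl : k ≤ l := by omega
    have hx12 : (p ++ a).take l = (p ++ b).take l := take_eq_of (by omega)
    have hx34 : (p' ++ a).take l = (p' ++ b).take l := take_eq_of (by omega)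
    have hz13 : (p ++ a).drop (2 * l) = (p' ++ a).drop (2 * l) := drop_eq_of hpp (by omega)
    have hz24 : (p ++ b).drop (2 * l) = (p' ++ b).drop (2 * l) := drop_eq_of hpp (by omega)
    have ptake : ∀ w : List (Le n), ((w.drop l).take l).take k = (w.take (l + k)).drop l := by
      intro w
      rw [List.take_take, min_eq_left hkl, List.take_drop]
    have pdrop : ∀ w : List (Le n), ((w.drop l).take l).drop k =
        (w.drop (l + k)).take (l - k) := by
      intro w
      rw [List.drop_take, List.drop_drop]
    have ht12 : (((p ++ a).drop l).take l).take k = (((p ++ b).drop l).take l).take k := by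
      rw [ptake, ptake, take_eq_of (b := b) (by omega)]
    have ht34 : (((p' ++ a).drop l).take l).take k = (((p' ++ b).drop l).take l).take k := by
      rw [ptake, ptake, take_eq_of (b := b) (by omega)]
    have hd13 : (((p ++ a).drop l).take l).drop k = (((p' ++ a).drop l).take l).drop k := by
      rw [pdrop, pdrop, drop_eq_of (p' := p') hpp (by omega)]
    have hd24 : (((p ++ b).drop l).take l).drop k = (((p' ++ b).drop l).take l).drop k := by
      rw [pdrop, pdrop, drop_eq_of (p' := p') hpp (by omega)]
    set y1 := ((p ++ a).drop l).take l with hy1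
    set y2 := ((p ++ b).drop l).take l with hy2
    set y3 := ((p' ++ a).drop l).take l with hy3
    set y4 := ((p' ++ b).drop l).take l with hy4
    have hlen : ∀ y ∈ W, y.length = l := fun y hy => (mem_RW.mp (hW hy)).1
    have hS : ∀ y ∈ W, S d 0 y = S d 0 (y.take k) + S d k (y.drop k) := by
      intro y hy
      conv_lhs => rw [← List.take_append_drop k y]
      rw [S_append, List.length_take, hlen y hy, min_eq_left hkl, zero_add]
    have s1 := hS y1 g1.hY
    have s2 := hS y2 g2.hY
    have s3 := hS y3 g3.hY
    have s4 := hS y4 g4.hY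
    have r1 := g1.rel
    have r2 := g2.rel
    have r3 := g3.rel
    have r4 := g4.rel
    rw [hx12] at r1
    rw [hx34] at r3
    have q1 : e ((p ++ b).take l) * S d 0 y1 = e ((p' ++ b).take l) * S d 0 y3 := by
      rw [hz13, r3] at r1
      exact (add_left_cancel r1).symm
    have q2 : e ((p ++ b).take l) * S d 0 y2 = e ((p' ++ b).take l) * S d 0 y4 := by
      rw [hz24, r4] at r2
      exact (add_left_cancel r2).symm
    have n1 := he0 _ g2.hX
    have n2 := he0 _ g4.hX
    rw [s1, s3, hd13] at q1
    rw [s2, s4, ← ht12, ← ht34, hd24] at q2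
    set E1 := e ((p ++ b).take l) with hE1
    set E2 := e ((p' ++ b).take l) with hE2
    have key : (E1 * E2) * ((S d 0 (y1.take k) - S d 0 (y3.take k)) *
        (S d k (y4.drop k) - S d k (y3.drop k))) = 0 := by
      have : (E1 * (S d 0 (y1.take k) + S d k (y3.drop k))) *
          (E2 * (S d 0 (y3.take k) + S d k (y4.drop k))) =
          (E2 * (S d 0 (y3.take k) + S d k (y3.drop k))) *
          (E1 * (S d 0 (y1.take k) + S d k (y4.drop k))) := by
        rw [q1, q2]
      linear_combination this
    have key2 := (mul_eq_zero.mp key).resolve_left (mul_ne_zero n1 n2)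
    have hkr : k ∈ Finset.range (l + 1) := Finset.mem_range.mpr (by omega)
    rcases mul_eq_zero.mp key2 with hA | hB
    · right
      have ht : y3.take k = y1.take k := by
        by_contra hne
        apply g1.good
        refine ⟨k, hkr, Or.inl ⟨y3.take k, take_mem_RW (hW g3.hY) hkl, hne, ?_⟩⟩
        exact (sub_eq_zero.mp hA).symm
      have hy : y1 = y3 := by
        rw [← List.take_append_drop k y1, ← List.take_append_drop k y3, ht, hd13]
      have hx : E1 = E2 := by
        have h5 := g1.ne0
        rw [← hy1, s1, hd13] at h5
        rw [ht] at q1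
        exact mul_right_cancel₀ h5 q1
      have hx' := he g2.hX g4.hX hx
      have : p ++ a = p' ++ a := by
        rw [pieces (l := l) (w := p ++ a), pieces (l := l) (w := p' ++ a), ← hy1, ← hy3, hy,
          hz13, hx12, hx34, hx']
      exact List.append_cancel_right this
    · left
      have ht : y4.drop k = y3.drop k := by
        by_contra hne
        apply g3.good
        refine ⟨k, hkr, Or.inr ⟨y4.drop k, drop_mem_RW (hW g4.hY), hne, ?_⟩⟩
        exact sub_eq_zero.mp hB
      have hy : y1 = y2 := by
        rw [← List.take_append_drop k y1, ← List.take_append_drop k y2, ht12, hd13, hd24, ht]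
      have hz : (p ++ a).drop (2 * l) = (p ++ b).drop (2 * l) := by
        apply he g1.hZ g2.hZ
        rw [r1, r2, ← hy1, ← hy2, hy]
      have : p ++ a = p ++ b := by
        rw [pieces (l := l) (w := p ++ a), pieces (l := l) (w := p ++ b), ← hy1, ← hy2, hy,
          hz, hx12]
      exact List.append_cancel_left this

end rect

end Q170.DDC
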