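import Pool.Agent.Q170.DDC.Lower

/-!
The size of the configuration.
-/

namespace Q170.DDC

open Classical in
lemma exists_emb {β : Type*} {P : ℕ} [Fact P.Prime] (W : Finset β) (h : W.card < P) :
    ∃ e : β → ZMod P, Set.InjOn e W ∧ ∀ w ∈ W, e w ≠ 0 := by
  have h1 : Fintype.card {w // w ∈ W} ≤ Fintype.card {z : ZMod P // z ≠ 0} := by
    rw [Fintype.card_coe, Fintype.card_subtype_compl, ZMod.card, Fintype.card_subtype_eq]
    omega
  obtain ⟨f⟩ := Function.Embedding.nonempty_of_card_le h1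
  refine ⟨fun w => if hw : w ∈ W then (f ⟨w, hw⟩ : ZMod P) else 0, ?_, ?_⟩
  · intro u hu v hv huv
    have hu' : u ∈ W := hu
    have hv' : v ∈ W := hv
    simp only [hu', hv', dif_pos] at huv
    have := f.injective (Subtype.ext huv)
    simpa using this
  · intro w hw
    simp only [hw, dif_pos]
    exact (f ⟨w, hw⟩).2

open Classical in
lemma exists_L {n : ℕ} (hn : 2 ≤ n) (m : ℕ) (hm : 2 ≤ m) :
    ∃ L : Finset (List (Le n)), (∀ w ∈ L, w.length = 3 * (m + 4)) ∧
      (∀ w ∈ L, FreeGroup.IsReduced w) ∧ RF (L : Set (List (Le n))) ∧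
      (2 * n - 1) ^ (2 * m) ≤ 32 * (2 * n - 1) ^ 5 * L.card := by
  set q := 2 * n - 1 with hq
  have hq3 : 3 ≤ q := by omega
  set l := m + 4 with hl
  set W := WW hn m with hWdef
  have hWs : W ⊆ RW n l := fun w hw => WW_subset hw
  obtain ⟨P, hP, hP1, hP2⟩ := Nat.exists_prime_lt_and_le_two_mul (4 * q ^ (l + 1))
    (by positivity)
  have : Fact P.Prime := ⟨hP⟩
  obtain ⟨d, hd⟩ := exists_digits (P := P) hn W hWs
  have hWc : W.card = (RW n m).card := card_WW hn m
  have hWlow : q ^ m ≤ W.card := by rw [hWc]; exact le_card_RW m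
  have hWup : W.card ≤ 2 * q ^ m := by rw [hWc]; exact card_RW_le hn m
  have hql : q ^ (l + 1) = q ^ m * q ^ 5 := by rw [← pow_add, hl]
  have hq5 : 243 ≤ q ^ 5 := by
    calc 243 = 3 ^ 5 := by norm_num
      _ ≤ q ^ 5 := Nat.pow_le_pow_left hq3 5
  have hqm : 9 ≤ q ^ m := by
    calc 9 = 3 ^ 2 := by norm_num
      _ ≤ q ^ 2 := Nat.pow_le_pow_left hq3 2
      _ ≤ q ^ m := Nat.pow_le_pow_right (by omega) hm
  have hWP : W.card < P := by nlinarith
  obtain ⟨e, he, he0⟩ := exists_emb (P := P) W hWP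
  set B := W.filter (Bad n l d) with hB
  set Y := W.filter (fun y => ¬ Bad n l d y ∧ S d 0 y ≠ 0) with hY
  -- few bad words
  have hBc : 2 * B.card ≤ W.card := by
    have h1 : 4 * q ^ (l + 1) * B.card ≤ 2 * q ^ (l + 1) * W.card :=
      (Nat.mul_le_mul_right _ hP1.le).trans hd
    have h2 : 0 < q ^ (l + 1) := by positivity
    have h3 : q ^ (l + 1) * (2 * (2 * B.card)) ≤ q ^ (l + 1) * (2 * W.card) := by
      calc _ = 4 * q ^ (l + 1) * B.card := by ring
        _ ≤ _ := h1
        _ = _ := by ring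
    have := Nat.le_of_mul_le_mul_left h3 h2
    omega
  -- at most one good word has digit sum zero
  have hZ : (W.filter (fun y => ¬ Bad n l d y ∧ S d 0 y = 0)).card ≤ 1 := by
    rw [Finset.card_le_one]
    intro y hy y' hy'
    simp only [Finset.mem_filter] at hy hy'
    by_contra hne
    apply hy.2.1
    have hyl : y.take l = y := List.take_of_length_le (mem_RW.mp (hWs hy.1)).1.le
    refine ⟨l, Finset.mem_range.mpr (by omega), Or.inl ⟨y', hWs hy'.1, ?_, ?_⟩⟩
    · rw [hyl]; exact Ne.symm hne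
    · rw [hyl, hy.2.2, hy'.2.2]
  have hpart : W.card ≤ Y.card + B.card +
      (W.filter (fun y => ¬ Bad n l d y ∧ S d 0 y = 0)).card := by
    have hsub : W ⊆ Y ∪ B ∪ W.filter (fun y => ¬ Bad n l d y ∧ S d 0 y = 0) := by
      intro y hy
      simp only [hY, hB, Finset.mem_union, Finset.mem_filter]
      by_cases h1 : Bad n l d y
      · left; right; exact ⟨hy, h1⟩
      · by_cases h2 : S d 0 y = 0
        · right; exact ⟨hy, h1, h2⟩
        · left; left; exact ⟨hy, h1, h2⟩
    refine (Finset.card_le_card hsub).trans ?_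
    refine (Finset.card_union_le _ _).trans ?_
    exact Nat.add_le_add_right (Finset.card_union_le _ _) _
  have hYc : W.card ≤ 4 * Y.card := by omega
  -- pigeonhole for the constant
  set T := W ×ˢ (Y ×ˢ W) with hT
  have hTc : T.card = W.card * (Y.card * W.card) := by
    rw [hT, Finset.card_product, Finset.card_product]
  set F : List (Le n) × List (Le n) × List (Le n) → ZMod P :=
    fun t => e t.2.2 - e t.1 * S d 0 t.2.1 with hF
  obtain ⟨c, hc⟩ : ∃ c : ZMod P, T.card ≤ P * (T.filter (fun t => F t = c)).card := by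
    by_contra hcon
    push Not at hcon
    have h1 : T.card = ∑ c : ZMod P, (T.filter (fun t => F t = c)).card :=
      Finset.card_eq_sum_card_fiberwise (fun x _ => Finset.mem_coe.mpr (Finset.mem_univ _))
    have h2 : ∑ c : ZMod P, P * (T.filter (fun t => F t = c)).card <
        ∑ _c : ZMod P, T.card :=
      Finset.sum_lt_sum_of_nonempty ⟨0, Finset.mem_univ _⟩ (fun c _ => hcon c)
    rw [← Finset.mul_sum, ← h1, Finset.sum_const, Finset.card_univ, ZMod.card,
      smul_eq_mul] at h2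
    exact absurd h2 (lt_irrefl _)
  set T' := T.filter (fun t => F t = c) with hT'
  set cat : List (Le n) × List (Le n) × List (Le n) → List (Le n) :=
    fun t => t.1 ++ t.2.1 ++ t.2.2 with hcat
  have hlenW : ∀ w ∈ W, w.length = l := fun w hw => (mem_RW.mp (hWs hw)).1
  have hmem : ∀ t ∈ T', t.1 ∈ W ∧ t.2.1 ∈ Y ∧ t.2.2 ∈ W ∧ F t = c := by
    intro t ht
    simp only [hT', hT, Finset.mem_filter, Finset.mem_product] at ht
    exact ⟨ht.1.1, ht.1.2.1, ht.1.2.2, ht.2⟩
  have hYW : ∀ y ∈ Y, y ∈ W := fun y hy => (Finset.mem_filter.mp hy).1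
  have hinj : Set.InjOn cat T' := by
    rintro ⟨x, y, z⟩ ht ⟨x', y', z'⟩ ht' h
    obtain ⟨a1, a2, a3, _⟩ := hmem _ (Finset.mem_coe.mp ht)
    obtain ⟨b1, b2, b3, _⟩ := hmem _ (Finset.mem_coe.mp ht')
    simp only [hcat] at h a1 a2 a3 b1 b2 b3
    rw [List.append_assoc, List.append_assoc] at h
    have h1 := List.append_inj h (by rw [hlenW _ a1, hlenW _ b1])
    have h2 := List.append_inj h1.2 (by rw [hlenW _ (hYW _ a2), hlenW _ (hYW _ b2)])
    rw [h1.1, h2.1, h2.2]
  set L := T'.image cat with hLdef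
  have hLc : L.card = T'.card := Finset.card_image_of_injOn hinj
  refine ⟨L, ?_, ?_, ?_, ?_⟩
  · intro w hw
    rw [hLdef, Finset.mem_image] at hw
    obtain ⟨t, ht, rfl⟩ := hw
    obtain ⟨a1, a2, a3, _⟩ := hmem _ ht
    simp only [hcat, List.length_append]
    rw [hlenW _ a1, hlenW _ (hYW _ a2), hlenW _ a3]
    ring
  · intro w hw
    rw [hLdef, Finset.mem_image] at hw
    obtain ⟨t, ht, rfl⟩ := hw
    obtain ⟨a1, a2, a3, _⟩ := hmem _ ht
    have c1 := mem_WW a1
    have c2 := mem_WW (hYW _ a2)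
    have c3 := mem_WW a3
    simp only [hcat]
    rw [List.append_assoc]
    refine reduced_append (hn := hn) c1.2.1 (reduced_append (hn := hn) c2.2.1 c3.2.1
      c2.2.2.2 c3.2.2.1) c1.2.2.2 ?_
    rw [List.head?_append, c2.2.2.1]
    rfl
  · apply rf_of_good (l := l) (W := W) hWs (d := d) (e := e) he he0 (c := c)
    intro w hw
    rw [Finset.mem_coe, hLdef, Finset.mem_image] at hw
    obtain ⟨⟨x, y, z⟩, ht, rfl⟩ := hw
    obtain ⟨a1, a2, a3, a4⟩ := hmem _ ht
    simp only [hcat, hF] at a1 a2 a3 a4 ⊢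
    have hx := hlenW _ a1
    have hy := hlenW _ (hYW _ a2)
    have e1 : (x ++ y ++ z).take l = x := by
      rw [List.append_assoc, ← hx, List.take_left']
      rfl
    have e2 : ((x ++ y ++ z).drop l).take l = y := by
      rw [List.append_assoc, List.drop_left' hx, List.take_left' hy]
    have e3 : (x ++ y ++ z).drop (2 * l) = z := by
      apply List.drop_left'
      rw [List.length_append, hx, hy]; ring
    have a2' := (Finset.mem_filter.mp a2)
    refine ⟨?_, ?_, ?_, ?_, ?_, ?_⟩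
    · rw [e1]; exact a1
    · rw [e2]; exact hYW _ a2
    · rw [e3]; exact a3
    · rw [e2]; exact a2'.2.1
    · rw [e2]; exact a2'.2.2
    · rw [e1, e2, e3, ← a4]; ring
  · rw [hLc]
    rw [hTc] at hc
    have h1 : W.card * (W.card * W.card) ≤ 4 * (P * T'.card) := by
      calc W.card * (W.card * W.card) ≤ W.card * ((4 * Y.card) * W.card) :=
            Nat.mul_le_mul_left _ (Nat.mul_le_mul_right _ hYc)
        _ = 4 * (W.card * (Y.card * W.card)) := by ring
        _ ≤ _ := Nat.mul_le_mul_left _ hc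
    have h2 : P * T'.card ≤ 2 * (4 * q ^ (l + 1)) * T'.card := Nat.mul_le_mul_right _ hP2
    have h3 : q ^ m * (q ^ m * q ^ m) ≤ W.card * (W.card * W.card) :=
      Nat.mul_le_mul hWlow (Nat.mul_le_mul hWlow hWlow)
    have h4 : q ^ m * (q ^ m * q ^ m) ≤ q ^ m * (32 * q ^ 5 * T'.card) := by
      calc _ ≤ 4 * (2 * (4 * q ^ (l + 1)) * T'.card) :=
            h3.trans (h1.trans (Nat.mul_le_mul_left _ h2))
        _ = _ := by rw [hql]; ring
    have h5 := Nat.le_of_mul_le_mul_left h4 (by positivity)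
    calc q ^ (2 * m) = q ^ m * q ^ m := by rw [← pow_add]; congr 1; ring
      _ ≤ _ := h5

end Q170.DDC
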