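import Pool.Agent.Q170.DDC.Upper

/-!
Logarithmic form of the bounds.
-/

namespace Q170.DDC

open FreeGroup

lemma log_upper {q N i j d : ℕ} (hq : 3 ≤ q) (hN : 1 ≤ N) (hi : 3 * i ≤ d + 9)
    (hj : 3 * j ≤ d + 9) (h : N ≤ q ^ i + q ^ j) :
    Real.logb q N ≤ d / 3 + 4 := by
  have hq1 : (1 : ℝ) < q := by
    have : (3 : ℝ) ≤ q := by exact_mod_cast hq
    linarith
  have hq0 : (0 : ℝ) < q := by linarith
  have h1 : (N : ℝ) ≤ (q : ℝ) ^ ((d : ℝ) / 3 + 4) := by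
    have e : (d : ℝ) / 3 + 4 = ((d : ℝ) / 3 + 3) + 1 := by ring
    have hi' : (q : ℝ) ^ i ≤ (q : ℝ) ^ ((d : ℝ) / 3 + 3) := by
      rw [← Real.rpow_natCast]
      apply Real.rpow_le_rpow_of_exponent_le hq1.le
      have : (3 : ℝ) * i ≤ d + 9 := by exact_mod_cast hi
      linarith
    have hj' : (q : ℝ) ^ j ≤ (q : ℝ) ^ ((d : ℝ) / 3 + 3) := by
      rw [← Real.rpow_natCast]
      apply Real.rpow_le_rpow_of_exponent_le hq1.le
      have : (3 : ℝ) * j ≤ d + 9 := by exact_mod_cast hj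
      linarith
    have h2 : (N : ℝ) ≤ (q : ℝ) ^ i + (q : ℝ) ^ j := by exact_mod_cast h
    rw [e, Real.rpow_add hq0, Real.rpow_one]
    have hpos : (0 : ℝ) < (q : ℝ) ^ ((d : ℝ) / 3 + 3) := Real.rpow_pos_of_pos hq0 _
    have hq3 : (3 : ℝ) ≤ q := by exact_mod_cast hq
    nlinarith
  have hN0 : (0 : ℝ) < N := by exact_mod_cast hN
  rwa [Real.logb_le_iff_le_rpow hq1 hN0]

lemma log_lower {q N m d : ℕ} (hq : 3 ≤ q) (hN : 1 ≤ N) (hd : d ≤ 6 * (m + 4) + 5)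
    (h : q ^ (2 * m) ≤ 32 * q ^ 5 * N) :
    (d : ℝ) / 3 - 20 ≤ Real.logb q N := by
  have hq3 : (3 : ℝ) ≤ q := by exact_mod_cast hq
  have hq1 : (1 : ℝ) < q := by linarith
  have hq0 : (0 : ℝ) < q := by linarith
  have hN0 : (0 : ℝ) < N := by exact_mod_cast hN
  rw [Real.le_logb_iff_rpow_le hq1 hN0]
  have h1 : (q : ℝ) ^ (2 * m) ≤ 32 * (q : ℝ) ^ 5 * N := by exact_mod_cast h
  have h2 : (q : ℝ) ^ ((d : ℝ) / 3 - 20) ≤ (q : ℝ) ^ ((2 * m : ℕ) - 9 : ℝ) := by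
    apply Real.rpow_le_rpow_of_exponent_le hq1.le
    have : (d : ℝ) ≤ 6 * (m + 4) + 5 := by exact_mod_cast hd
    push_cast
    linarith
  have h3 : (q : ℝ) ^ ((2 * m : ℕ) - 9 : ℝ) = (q : ℝ) ^ (2 * m) / (q : ℝ) ^ 9 := by
    rw [Real.rpow_sub hq0, Real.rpow_natCast]
    norm_cast
  have h4 : (q : ℝ) ^ (2 * m) / (q : ℝ) ^ 9 ≤ N := by
    rw [div_le_iff₀ (by positivity)]
    have h5 : (32 : ℝ) ≤ (q : ℝ) ^ 4 := by
      calc (32 : ℝ) ≤ 3 ^ 4 := by norm_num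
        _ ≤ (q : ℝ) ^ 4 := by gcongr
    have h6 : 0 < (q : ℝ) ^ 5 * N := by positivity
    calc (q : ℝ) ^ (2 * m) ≤ 32 * (q : ℝ) ^ 5 * N := h1
      _ = 32 * ((q : ℝ) ^ 5 * N) := by ring
      _ ≤ (q : ℝ) ^ 4 * ((q : ℝ) ^ 5 * N) := by gcongr
      _ = _ := by ring
  rw [h3] at h2
  exact h2.trans h4

lemma singleton_ok (n d : ℕ) : IsDDC (({1} : Finset (FreeGroup (Fin n))) :
    Set (FreeGroup (Fin n))) ∧ DiamLE d (({1} : Finset (FreeGroup (Fin n))) :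
    Set (FreeGroup (Fin n))) := by
  constructor
  · intro g hg h hh _ _ _ _ hne
    simp only [Finset.coe_singleton, Set.mem_singleton_iff] at hg hh
    exact absurd (by rw [hg, hh]) hne
  · intro g hg h hh
    simp only [Finset.coe_singleton, Set.mem_singleton_iff] at hg hh
    rw [hg, hh]
    simp

/-- the possible sizes -/
def Sizes (n d : ℕ) : Set ℕ :=
  {k | ∃ D : Finset (FreeGroup (Fin n)), IsDDC (D : Set (FreeGroup (Fin n))) ∧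
    DiamLE d (D : Set (FreeGroup (Fin n))) ∧ D.card = k}

lemma bound_of_mem {n d N : ℕ} (hn : 2 ≤ n) (h : N ∈ Sizes n d) :
    ∃ i j : ℕ, 3 * i ≤ d + 9 ∧ 3 * j ≤ d + 9 ∧ N ≤ (2 * n - 1) ^ i + (2 * n - 1) ^ j := by
  obtain ⟨D, h1, h2, rfl⟩ := h
  exact upper hn h2 h1

lemma bdd {n d : ℕ} (hn : 2 ≤ n) : BddAbove (Sizes n d) := by
  refine ⟨2 * (2 * n - 1) ^ (d + 9), ?_⟩
  intro N hN
  obtain ⟨i, j, hi, hj, h⟩ := bound_of_mem hn hN
  have h1 : (2 * n - 1) ^ i ≤ (2 * n - 1) ^ (d + 9) := Nat.pow_le_pow_right (by omega) (by omega)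
  have h2 : (2 * n - 1) ^ j ≤ (2 * n - 1) ^ (d + 9) := Nat.pow_le_pow_right (by omega) (by omega)
  omega

lemma one_mem (n d : ℕ) : 1 ∈ Sizes n d :=
  ⟨{1}, (singleton_ok n d).1, (singleton_ok n d).2, by simp⟩

lemma isGreatest {n : ℕ} (hn : 2 ≤ n) (d : ℕ) : IsGreatest (Sizes n d) (sSup (Sizes n d)) :=
  ⟨Nat.sSup_mem ⟨1, one_mem n d⟩ (bdd hn), fun _ h => le_csSup (bdd hn) h⟩

lemma main {n : ℕ} (hn : 2 ≤ n) (d : ℕ) :
    |Real.logb (2 * n - 1 : ℕ) (sSup (Sizes n d) : ℕ) - d / 3| ≤ 20 := by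
  have hg := isGreatest hn d
  set N := sSup (Sizes n d) with hN
  have hN1 : 1 ≤ N := hg.2 (one_mem n d)
  have hq : 3 ≤ 2 * n - 1 := by omega
  obtain ⟨i, j, hi, hj, h⟩ := bound_of_mem hn hg.1
  have h1 := log_upper hq hN1 hi hj h
  have h2 : (d : ℝ) / 3 - 20 ≤ Real.logb (2 * n - 1 : ℕ) N := by
    rcases le_or_gt 36 d with hd | hd
    · obtain ⟨D, a1, a2, a3⟩ := lower hn ((d - 24) / 6) (by omega) d (by omega)
      have a4 : D.card ≤ N := hg.2 ⟨D, a1, a2, rfl⟩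
      exact log_lower hq hN1 (m := (d - 24) / 6) (by omega)
        (a3.trans (Nat.mul_le_mul_left _ a4))
    · have h3 : 0 ≤ Real.logb (2 * n - 1 : ℕ) N := by
        apply Real.logb_nonneg
        · have : (3 : ℝ) ≤ (2 * n - 1 : ℕ) := by exact_mod_cast hq
          linarith
        · exact_mod_cast hN1
      have h4 : (d : ℝ) < 36 := by exact_mod_cast hd
      linarith
  rw [abs_le]
  constructor <;> linarith

end Q170.DDC
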