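import Pool.Agent.Q170.DDC.Lower2

/-!
The upper bound and the final statement.
-/

namespace Q170.DDC

open FreeGroup

variable {n : ℕ}

lemma norm_eq (g : FreeGroup (Fin n)) : g.norm = g.toWord.length := rfl

/-- a set of diameter at most `d` lies in a ball of radius `(d + 1) / 2` -/
lemma exists_center {D : Finset (FreeGroup (Fin n))} (hne : D.Nonempty) {d : ℕ}
    (hD : DiamLE d (D : Set (FreeGroup (Fin n)))) :
    ∃ c : FreeGroup (Fin n), ∀ k ∈ D, (c⁻¹ * k).norm ≤ (d + 1) / 2 := by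
  obtain ⟨⟨g0, h0⟩, hmem, hmax⟩ := Finset.exists_max_image (D ×ˢ D)
    (fun t => (t.1⁻¹ * t.2).norm) (hne.product hne)
  rw [Finset.mem_product] at hmem
  set w := (g0⁻¹ * h0).toWord with hw
  set dl := w.length with hdl
  have hdld : dl ≤ d := hD g0 hmem.1 h0 hmem.2
  have hmax' : ∀ g ∈ D, ∀ h ∈ D, (g⁻¹ * h).norm ≤ dl := by
    intro g hg h hh
    exact hmax (g, h) (Finset.mem_product.mpr ⟨hg, hh⟩)
  refine ⟨g0 * mk (w.take (dl / 2)), ?_⟩
  intro k hk
  set u := (g0⁻¹ * k).toWord with hu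
  have hmw : mk w = g0⁻¹ * h0 := mk_toWord
  have hmu : mk u = g0⁻¹ * k := mk_toWord
  have hwr : FreeGroup.IsReduced w := isReduced_toWord
  have hur : FreeGroup.IsReduced u := isReduced_toWord
  obtain ⟨p, a, b, h1, h2, h3⟩ := exists_lcp w u
  have hlw : dl = p.length + a.length := by rw [hdl, h1, List.length_append]
  have hnu : p.length + b.length ≤ dl := by
    rw [← List.length_append, ← h2]
    exact hmax' g0 hmem.1 k hk
  have hdist : a.length + b.length ≤ dl := by
    rw [h1] at hwr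
    rw [h2] at hur
    rw [← norm_diff hwr hur h3, ← h1, ← h2, hmw, hmu]
    have : (g0⁻¹ * h0)⁻¹ * (g0⁻¹ * k) = h0⁻¹ * k := by group
    rw [this]
    exact hmax' h0 hmem.2 k hk
  have hck : (g0 * mk (w.take (dl / 2)))⁻¹ * k = (mk (w.take (dl / 2)))⁻¹ * mk u := by
    rw [hmu]; group
  rw [hck]
  rcases le_or_gt (dl / 2) p.length with hs | hs
  · have e1 : w.take (dl / 2) = p.take (dl / 2) := by
      rw [h1, List.take_append_of_le_length hs]
    have e2 : u = p.take (dl / 2) ++ (p.drop (dl / 2) ++ b) := by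
      rw [← List.append_assoc, List.take_append_drop, h2]
    have e3 : (mk (w.take (dl / 2)))⁻¹ * mk u = mk (p.drop (dl / 2) ++ b) := by
      rw [e1, e2, ← mul_mk]
      group
    rw [e3]
    refine (norm_mk_le).trans ?_
    rw [List.length_append, List.length_drop]
    omega
  · have e1 : w.take (dl / 2) = p ++ a.take (dl / 2 - p.length) := by
      rw [h1, List.take_append, List.take_of_length_le hs.le]
    have e3 : (mk (w.take (dl / 2)))⁻¹ * mk u = (mk (a.take (dl / 2 - p.length)))⁻¹ * mk b := by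
      rw [e1, h2, ← mul_mk, ← mul_mk]
      group
    rw [e3]
    refine (FreeGroup.norm_mul_le _ _).trans ?_
    rw [norm_inv_eq]
    have n1 : (mk (a.take (dl / 2 - p.length))).norm ≤ dl / 2 - p.length :=
      norm_mk_le.trans (by rw [List.length_take]; omega)
    have n2 : (mk b).norm ≤ b.length := norm_mk_le
    omega

/-- words of length at most `k` -/
def Ball (n k : ℕ) : Finset (List (Le n)) := (Finset.range (k + 1)).biUnion (RW n)

lemma mem_Ball {k : ℕ} {w : List (Le n)} :
    w ∈ Ball n k ↔ w.length ≤ k ∧ FreeGroup.IsReduced w := by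
  simp only [Ball, Finset.mem_biUnion, Finset.mem_range, mem_RW]
  constructor
  · rintro ⟨i, hi, h1, h2⟩
    exact ⟨by omega, h2⟩
  · rintro ⟨h1, h2⟩
    exact ⟨w.length, by omega, rfl, h2⟩

lemma card_Ball_le (hn : 2 ≤ n) (k : ℕ) : (Ball n k).card ≤ (2 * n - 1) ^ (k + 1) :=
  Finset.card_biUnion_le.trans (sum_card_RW_le hn k)

lemma upper (hn : 2 ≤ n) {D : Finset (FreeGroup (Fin n))} {d : ℕ}
    (hD : DiamLE d (D : Set (FreeGroup (Fin n))))
    (hdd : IsDDC (D : Set (FreeGroup (Fin n)))) :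
    ∃ i j : ℕ, 3 * i ≤ d + 9 ∧ 3 * j ≤ d + 9 ∧ D.card ≤ (2 * n - 1) ^ i + (2 * n - 1) ^ j := by
  classical
  rcases D.eq_empty_or_nonempty with rfl | hne
  · exact ⟨0, 0, by omega, by omega, by simp⟩
  obtain ⟨c, hc⟩ := exists_center hne hD
  set R := (d + 1) / 2 with hR
  set r := R / 3 with hr
  set j := R - r with hj
  set wd : FreeGroup (Fin n) → List (Le n) := fun g => (c⁻¹ * g).toWord with hwd
  have hmk : ∀ g, g = c * mk (wd g) := by
    intro g
    rw [hwd]
    simp only [mk_toWord]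
    group
  have hlen : ∀ g ∈ D, (wd g).length ≤ R := fun g hg => hc g hg
  set pi : FreeGroup (Fin n) → List (Le n) := fun g => (wd g).take j with hpi
  set dr : FreeGroup (Fin n) → List (Le n) := fun g => (wd g).drop j with hdr
  have hpB : ∀ g, pi g ∈ Ball n j := by
    intro g
    rw [mem_Ball]
    refine ⟨by simp [hpi], ?_⟩
    exact red_take (isReduced_toWord (x := c⁻¹ * g)) j
  have hdB : ∀ g ∈ D, dr g ∈ Ball n r := by
    intro g hg
    rw [mem_Ball]
    refine ⟨?_, ?_⟩
    · simp only [hdr, List.length_drop]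
      have := hlen g hg
      omega
    · exact red_drop (isReduced_toWord (x := c⁻¹ * g)) j
  have hdiff : ∀ g h, pi g = pi h → g⁻¹ * h = (mk (dr g))⁻¹ * mk (dr h) := by
    intro g h hgh
    have e1 : mk (wd g) = mk (pi g) * mk (dr g) := by
      rw [mul_mk]; simp only [hpi, hdr, List.take_append_drop]
    have e2 : mk (wd h) = mk (pi g) * mk (dr h) := by
      rw [hgh, mul_mk]; simp only [hpi, hdr, List.take_append_drop]
    calc g⁻¹ * h = (c * mk (wd g))⁻¹ * (c * mk (wd h)) := by rw [← hmk g, ← hmk h]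
      _ = _ := by rw [e1, e2]; group
  -- pairs with the same prefix
  set Q := (D ×ˢ D).filter (fun t => t.1 ≠ t.2 ∧ pi t.1 = pi t.2) with hQ
  have hQc : Q.card ≤ (Ball n r ×ˢ Ball n r).card := by
    apply Finset.card_le_card_of_injOn (fun t => (dr t.1, dr t.2))
    · rintro ⟨g, h⟩ ht
      rw [Finset.mem_coe, hQ, Finset.mem_filter, Finset.mem_product] at ht
      rw [Finset.mem_coe, Finset.mem_product]
      exact ⟨hdB g ht.1.1, hdB h ht.1.2⟩
    · rintro ⟨g, h⟩ ht ⟨g', h'⟩ ht' he
      rw [Finset.mem_coe, hQ, Finset.mem_filter, Finset.mem_product] at ht ht'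
      simp only [Prod.mk.injEq] at he ht ht' ⊢
      apply hdd g ht.1.1 h ht.1.2 g' ht'.1.1 h' ht'.1.2 ht.2.1 ht'.2.1
      rw [hdiff g h ht.2.2, hdiff g' h' ht'.2.2, he.1, he.2]
  -- representatives
  have hrep : ∀ t ∈ D.image pi, ∃ g ∈ D, pi g = t := by
    intro t ht
    rw [Finset.mem_image] at ht
    exact ht
  choose! rep hrep1 hrep2 using hrep
  have hcov : D ⊆ (D.image pi).image rep ∪ D.filter (fun g => g ≠ rep (pi g)) := by
    intro g hg
    rw [Finset.mem_union, Finset.mem_image, Finset.mem_filter]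
    by_cases h : g = rep (pi g)
    · left; exact ⟨pi g, Finset.mem_image_of_mem _ hg, h.symm⟩
    · right; exact ⟨hg, h⟩
  have hA : ((D.image pi).image rep).card ≤ (Ball n j).card := by
    refine Finset.card_image_le.trans (Finset.card_le_card ?_)
    intro t ht
    rw [Finset.mem_image] at ht
    obtain ⟨g, _, rfl⟩ := ht
    exact hpB g
  have hB : (D.filter (fun g => g ≠ rep (pi g))).card ≤ Q.card := by
    apply Finset.card_le_card_of_injOn (fun g => (g, rep (pi g)))
    · intro g hg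
      rw [Finset.mem_coe, Finset.mem_filter] at hg
      rw [Finset.mem_coe, hQ, Finset.mem_filter, Finset.mem_product]
      have hm := Finset.mem_image_of_mem pi hg.1
      exact ⟨⟨hg.1, hrep1 _ hm⟩, hg.2, (hrep2 _ hm).symm⟩
    · intro g _ h _ he
      exact (Prod.mk.inj he).1
  refine ⟨j + 1, 2 * (r + 1), by omega, by omega, ?_⟩
  calc D.card ≤ _ := Finset.card_le_card hcov
    _ ≤ _ := Finset.card_union_le _ _
    _ ≤ (Ball n j).card + (Ball n r ×ˢ Ball n r).card := Nat.add_le_add hA (hB.trans hQc)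
    _ ≤ (2 * n - 1) ^ (j + 1) + (2 * n - 1) ^ (2 * (r + 1)) := by
        apply Nat.add_le_add (card_Ball_le hn j)
        rw [Finset.card_product, two_mul (r + 1), pow_add]
        exact Nat.mul_le_mul (card_Ball_le hn r) (card_Ball_le hn r)

lemma finite_of_diam {D : Set (FreeGroup (Fin n))} {d : ℕ} (hD : DiamLE d D) : D.Finite := by
  rcases D.eq_empty_or_nonempty with rfl | ⟨g0, hg0⟩
  · exact Set.finite_empty
  have h1 : ((fun g => (g0⁻¹ * g).toWord) '' D).Finite := by
    apply (List.finite_length_le (Le n) d).subset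
    rintro _ ⟨g, hg, rfl⟩
    exact hD g0 hg0 g hg
  apply h1.of_finite_image
  intro g _ h _ hgh
  have := toWord_injective hgh
  exact mul_left_cancel this

lemma diam_mono {D : Set (FreeGroup (Fin n))} {d d' : ℕ} (h : d ≤ d') (hD : DiamLE d D) :
    DiamLE d' D := fun g hg h' hh => (hD g hg h' hh).trans h

lemma lower (hn : 2 ≤ n) (m : ℕ) (hm : 2 ≤ m) (d : ℕ) (hd : 6 * (m + 4) ≤ d) :
    ∃ D : Finset (FreeGroup (Fin n)), IsDDC (D : Set (FreeGroup (Fin n))) ∧
      DiamLE d (D : Set (FreeGroup (Fin n))) ∧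
      (2 * n - 1) ^ (2 * m) ≤ 32 * (2 * n - 1) ^ 5 * D.card := by
  classical
  obtain ⟨L, h1, h2, h3, h4⟩ := exists_L hn m hm
  obtain ⟨h5, h6⟩ := ddc_of_rf (L := (L : Set (List (Le n)))) (r := 3 * (m + 4))
    (fun w hw => h1 w hw) (fun w hw => h2 w hw) h3
  refine ⟨L.image mk, ?_, ?_, ?_⟩
  · rw [Finset.coe_image]; exact h5
  · rw [Finset.coe_image]; exact diam_mono (by omega) h6
  · rw [Finset.card_image_of_injOn]
    · exact h4
    · exact mk_injOn_reduced.mono (fun w hw => h2 w hw)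

end Q170.DDC
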