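import Mathlib

/-!
Reduced words, differences of elements of a free group in terms of common prefixes.
-/

namespace Q170.DDC

open FreeGroup

variable {α : Type*}

/-- letters -/
abbrev Lt (α : Type*) := α × Bool

lemma isReduced_invRev {u : List (Lt α)} (h : IsReduced u) : IsReduced (invRev u) := by
  unfold invRev FreeGroup.IsReduced at *
  rw [List.isChain_reverse, List.isChain_map]
  refine h.imp ?_
  rintro ⟨a, b⟩ ⟨c, d⟩ h1
  intro h2
  rw [h1 h2.symm]

lemma red_left {a b : List (Lt α)} (h : IsReduced (a ++ b)) : IsReduced a :=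
  (List.isChain_append.mp h).1

lemma red_right {a b : List (Lt α)} (h : IsReduced (a ++ b)) : IsReduced b :=
  (List.isChain_append.mp h).2.1

lemma red_take {w : List (Lt α)} (h : IsReduced w) (j : ℕ) : IsReduced (w.take j) := by
  rw [← List.take_append_drop j w] at h
  exact red_left h

lemma red_drop {w : List (Lt α)} (h : IsReduced w) (j : ℕ) : IsReduced (w.drop j) := by
  rw [← List.take_append_drop j w] at h
  exact red_right h

/-- the heads of two lists differ -/
def HeadsNe (a b : List (Lt α)) : Prop := ∀ x ∈ a.head?, ∀ y ∈ b.head?, x ≠ y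

lemma exists_lcp (u v : List (Lt α)) :
    ∃ p a b, u = p ++ a ∧ v = p ++ b ∧ HeadsNe a b := by
  classical
  induction u generalizing v with
  | nil => exact ⟨[], [], v, by simp, by simp, by intro x hx; simp at hx⟩
  | cons x u ih =>
    cases v with
    | nil => exact ⟨[], x :: u, [], by simp, by simp, by intro a _ b hb; simp at hb⟩
    | cons y v =>
      by_cases hxy : x = y
      · subst hxy
        obtain ⟨p, a, b, h1, h2, h3⟩ := ih v
        exact ⟨x :: p, a, b, by simp [h1], by simp [h2], h3⟩
      · refine ⟨[], x :: u, y :: v, by simp, by simp, ?_⟩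
        intro a ha b hb
        simp at ha hb
        subst ha; subst hb
        exact hxy

lemma isReduced_diff {a b : List (Lt α)} (ha : IsReduced a) (hb : IsReduced b)
    (h : HeadsNe a b) : IsReduced (invRev a ++ b) := by
  have h1 := isReduced_invRev ha
  unfold FreeGroup.IsReduced at *
  rw [List.isChain_append]
  refine ⟨h1, hb, ?_⟩
  intro x hx y hy hxy
  have hx' : x ∈ (invRev a).getLast? := hx
  unfold invRev at hx'
  rw [List.getLast?_reverse, List.head?_map] at hx'
  simp only [Option.mem_def, Option.map_eq_some_iff] at hx'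
  obtain ⟨z, hz, rfl⟩ := hx'
  have := h z hz y hy
  simp only at hxy ⊢
  by_contra hne
  apply this
  ext
  · exact hxy
  · revert hne
    cases z.2 <;> cases y.2 <;> simp

lemma inv_mul_mk (p a b : List (Lt α)) :
    (mk (p ++ a))⁻¹ * mk (p ++ b) = mk (invRev a ++ b) := by
  rw [← mul_mk, ← mul_mk, ← mul_mk, ← inv_mk]
  group

variable [DecidableEq α]

lemma toWord_diff {p a b : List (Lt α)} (ha : IsReduced (p ++ a)) (hb : IsReduced (p ++ b))
    (h : HeadsNe a b) : ((mk (p ++ a))⁻¹ * mk (p ++ b)).toWord = invRev a ++ b := by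
  rw [inv_mul_mk, toWord_mk]
  apply IsReduced.reduce_eq
  apply isReduced_diff _ _ h
  · exact red_right ha
  · exact red_right hb

lemma norm_diff {p a b : List (Lt α)} (ha : IsReduced (p ++ a)) (hb : IsReduced (p ++ b))
    (h : HeadsNe a b) : ((mk (p ++ a))⁻¹ * mk (p ++ b)).norm = a.length + b.length := by
  unfold FreeGroup.norm
  rw [toWord_diff ha hb h]
  simp

/-- distinct differences -/
def IsDDC (D : Set (FreeGroup α)) : Prop :=
  ∀ g ∈ D, ∀ h ∈ D, ∀ g' ∈ D, ∀ h' ∈ D, g ≠ h → g' ≠ h' →
    g⁻¹ * h = g'⁻¹ * h' → g = g' ∧ h = h'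

/-- diameter at most `d` -/
def DiamLE (d : ℕ) (D : Set (FreeGroup α)) : Prop :=
  ∀ g ∈ D, ∀ h ∈ D, (g⁻¹ * h).norm ≤ d

/-- no rectangles at any cut -/
def RF (L : Set (List (Lt α))) : Prop :=
  ∀ p p' a b : List (Lt α), p.length = p'.length → p ++ a ∈ L → p ++ b ∈ L →
    p' ++ a ∈ L → p' ++ b ∈ L → a = b ∨ p = p'

omit [DecidableEq α] in
lemma length_invRev (u : List (Lt α)) : (invRev u).length = u.length := by simp

lemma ddc_of_rf {L : Set (List (Lt α))} {r : ℕ} (hlen : ∀ w ∈ L, w.length = r)
    (hred : ∀ w ∈ L, IsReduced w) (hrf : RF L) :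
    IsDDC (mk '' L : Set (FreeGroup α)) ∧ DiamLE (2 * r) (mk '' L : Set (FreeGroup α)) := by
  constructor
  · rintro _ ⟨u, hu, rfl⟩ _ ⟨v, hv, rfl⟩ _ ⟨u', hu', rfl⟩ _ ⟨v', hv', rfl⟩ hne hne' he
    obtain ⟨p, a, b, rfl, rfl, h1⟩ := exists_lcp u v
    obtain ⟨p', a', b', rfl, rfl, h2⟩ := exists_lcp u' v'
    have e1 := toWord_diff (hred _ hu) (hred _ hv) h1
    have e2 := toWord_diff (hred _ hu') (hred _ hv') h2
    rw [he, e2] at e1
    have l1 := hlen _ hu
    have l2 := hlen _ hv
    have l3 := hlen _ hu'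
    have l4 := hlen _ hv'
    simp only [List.length_append] at l1 l2 l3 l4
    have l5 := congrArg List.length e1
    simp only [List.length_append, length_invRev] at l5
    have haa : a'.length = a.length := by omega
    have h3 := List.append_inj e1 (by simp [haa])
    have ha : a' = a := invRev_injective h3.1
    have hb : b' = b := h3.2
    subst ha; subst hb
    rcases hrf p p' a' b' (by omega) hu hv hu' hv' with h | h
    · exact absurd (by rw [h]) hne
    · rw [h]; exact ⟨rfl, rfl⟩
  · rintro _ ⟨u, hu, rfl⟩ _ ⟨v, hv, rfl⟩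
    refine (FreeGroup.norm_mul_le _ _).trans ?_
    rw [norm_inv_eq]
    have h1 : (mk u).norm ≤ u.length := norm_mk_le
    have h2 : (mk v).norm ≤ v.length := norm_mk_le
    rw [hlen u hu] at h1
    rw [hlen v hv] at h2
    omega

lemma mk_injOn_reduced : Set.InjOn (mk : List (Lt α) → FreeGroup α) {w | IsReduced w} := by
  intro u hu v hv h
  have := congrArg toWord h
  rw [toWord_mk, toWord_mk, IsReduced.reduce_eq hu, IsReduced.reduce_eq hv] at this
  exact this

end Q170.DDC
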